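import Pool.Agent.Helper25.KV.Goals

/-! # KV / H_WEAK (MP_66be51_an): smooth solutions satisfy the weak equation integrated in time -/

set_option linter.unusedVariables false

namespace Pool.Agent.Helper89.KV.HWEAK

open Real MeasureTheory Set Filter Topology
open Pool.Agent.Helper33.KV (SmoothSol flux)

theorem hasDerivAt_iter {v : ℝ → ℝ} (hv : ContDiff ℝ (⊤ : ℕ∞) v) (k : ℕ) (x : ℝ) :
    HasDerivAt (iteratedDeriv k v) (iteratedDeriv (k + 1) v x) x := by
  have h1 : Differentiable ℝ (iteratedDeriv k v) :=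
    hv.differentiable_iteratedDeriv k (by exact_mod_cast ENat.natCast_lt_top k)
  rw [iteratedDeriv_succ]
  exact (h1 x).hasDerivAt

/-- the spatial derivative of the flux -/
noncomputable def dflux (v : ℝ → ℝ) (x : ℝ) : ℝ :=
  iteratedDeriv 3 v x + 5 * iteratedDeriv 0 v x ^ 4 * iteratedDeriv 1 v x

theorem deriv_flux {v : ℝ → ℝ} (hv : ContDiff ℝ (⊤ : ℕ∞) v) (x : ℝ) :
    deriv (flux v) x = dflux v x := by
  have h0 := hasDerivAt_iter hv 0 x
  have h2 := hasDerivAt_iter hv 2 x
  have h3 : HasDerivAt (fun y => iteratedDeriv 2 v y + iteratedDeriv 0 v y ^ 5)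
      (iteratedDeriv 3 v x + ((5 : ℕ) : ℝ) * iteratedDeriv 0 v x ^ 4 * iteratedDeriv 1 v x) x :=
    h2.add (h0.pow 5)
  have h4 : (fun y => iteratedDeriv 2 v y + iteratedDeriv 0 v y ^ 5) = flux v := by
    ext y
    simp [flux]
  rw [h4] at h3
  rw [h3.deriv, dflux]
  norm_num

/-- integration by parts -/
theorem ibp {v θ : ℝ → ℝ} (hv : ContDiff ℝ (⊤ : ℕ∞) v) (hθ : ContDiff ℝ (⊤ : ℕ∞) θ)
    (hc : HasCompactSupport θ) :
    (∫ x, -dflux v x * θ x) = ∫ x, (v x * iteratedDeriv 3 θ x + v x ^ 5 * deriv θ x) := by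
  have cv : ∀ k, Continuous (iteratedDeriv k v) := fun k =>
    hv.continuous_iteratedDeriv k (by exact_mod_cast le_top)
  have cθ : ∀ k, Continuous (iteratedDeriv k θ) := fun k =>
    hθ.continuous_iteratedDeriv k (by exact_mod_cast le_top)
  have sθ : ∀ k, HasCompactSupport (iteratedDeriv k θ) := by
    intro k
    induction k with
    | zero => rw [iteratedDeriv_zero]; exact hc
    | succ k ih => rw [iteratedDeriv_succ]; exact ih.deriv
  have int : ∀ (w : ℝ → ℝ) (k : ℕ), Continuous w → Integrable (fun x => w x * iteratedDeriv k θ x) :=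
    fun w k hw => (hw.mul (cθ k)).integrable_of_hasCompactSupport (sθ k).mul_left
  set W : ℝ → ℝ := fun x => -(iteratedDeriv 2 v x * iteratedDeriv 0 θ x
    - iteratedDeriv 1 v x * iteratedDeriv 1 θ x + iteratedDeriv 0 v x * iteratedDeriv 2 θ x)
    - iteratedDeriv 0 v x ^ 5 * iteratedDeriv 0 θ x with hW
  set W' : ℝ → ℝ := fun x => -dflux v x * θ x -
    (v x * iteratedDeriv 3 θ x + v x ^ 5 * deriv θ x) with hW'
  have cd : Continuous (fun x => -dflux v x) := by
    have h0 := cv 0
    have h1 := cv 1
    have h3 := cv 3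
    unfold dflux
    fun_prop
  have cv0 : Continuous v := hv.continuous
  have i1 : Integrable (fun x => -dflux v x * θ x) := by
    have := int _ 0 cd
    simpa [iteratedDeriv_zero] using this
  have i2 : Integrable (fun x => v x * iteratedDeriv 3 θ x + v x ^ 5 * deriv θ x) := by
    have h1 := int _ 1 (cv0.pow 5)
    rw [iteratedDeriv_one] at h1
    exact (int _ 3 cv0).add h1
  have hder : ∀ x, HasDerivAt W (W' x) x := by
    intro x
    have a0 := hasDerivAt_iter hv 0 x
    have a1 := hasDerivAt_iter hv 1 x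
    have a2 := hasDerivAt_iter hv 2 x
    have b0 := hasDerivAt_iter hθ 0 x
    have b1 := hasDerivAt_iter hθ 1 x
    have b2 := hasDerivAt_iter hθ 2 x
    have h1 := ((((a2.mul b0).sub (a1.mul b1)).add (a0.mul b2)).neg).sub ((a0.pow 5).mul b0)
    refine (HasDerivAt.congr_deriv h1 ?_)
    simp only [hW', dflux, iteratedDeriv_zero, iteratedDeriv_one, zero_add, Nat.reduceAdd,
      Pi.pow_apply]
    push_cast
    ring
  have iW' : Integrable W' := i1.sub i2
  have iW : Integrable W := by
    have j1 := int _ 0 (cv 2)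
    have j2 := int _ 1 (cv 1)
    have j3 := int _ 2 (cv 0)
    have j4 := int _ 0 ((cv 0).pow 5)
    exact (((j1.sub j2).add j3).neg).sub j4
  have h := integral_eq_zero_of_hasDerivAt_of_integrable hder iW' iW
  rw [hW'] at h
  rw [integral_sub i1 i2] at h
  linarith

end Pool.Agent.Helper89.KV.HWEAK

namespace Pool.Agent.Helper25.KV

open Real MeasureTheory Set Filter Topology
open Pool.Agent.Helper33.KV (SmoothSol flux)
open Pool.Agent.Helper89.KV.HWEAK

theorem thm_WEAK : H_WEAK := by
  intro a b u hu θ hθ hc s hs t ht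
  have hab : a ≤ b := hs.1.trans hs.2
  -- the clamp
  set c : ℝ → ℝ := fun r => max a (min r b) with hcdef
  have hcc : Continuous c := by fun_prop
  have hcm : ∀ r, c r ∈ Icc a b := fun r =>
    ⟨le_max_left _ _, max_le hab (min_le_right _ _)⟩
  have hcr : ∀ r ∈ Icc a b, c r = r := by
    intro r hr
    simp only [hcdef]
    rw [min_eq_left hr.2, max_eq_right hr.1]
  have sm : ∀ r ∈ Icc a b, ContDiff ℝ (⊤ : ℕ∞) (u r) := hu.hinf.smooth
  have cont : ∀ k : ℕ, Continuous (fun p : ℝ × ℝ => iteratedDeriv k (u (c p.1)) p.2) := by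
    intro k
    have h1 := hu.hinf.cont k
    have h2 : Continuous (fun p : ℝ × ℝ => ((c p.1, p.2) : ℝ × ℝ)) := by fun_prop
    exact h1.comp_continuous h2 fun p => ⟨hcm _, mem_univ _⟩
  obtain ⟨G, hG⟩ : ∃ G : ℝ → ℝ → ℝ, G = fun r x => -dflux (u (c r)) x := ⟨_, rfl⟩
  have cG : Continuous (fun p : ℝ × ℝ => G p.1 p.2) := by
    have c0 := cont 0
    have c1 := cont 1
    have c3 := cont 3
    simp only [hG, dflux]
    fun_prop
  have cθ : Continuous θ := hθ.continuous
  -- fundamental theorem of calculus
  have ftc : ∀ x, (∫ r in s..t, G r x) = u t x - u s x := by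
    intro x
    have hd : ∀ r ∈ Icc a b, HasDerivWithinAt (fun τ => u τ x) (G r x) (Icc a b) r := by
      intro r hr
      have h1 := hu.eqn 0 r hr x
      simp only [iteratedDeriv_zero] at h1
      rw [deriv_flux (sm r hr)] at h1
      simp only [hG]
      rw [hcr r hr]
      exact h1
    have hsub : uIcc s t ⊆ Icc a b := uIcc_subset_Icc hs ht
    refine intervalIntegral.integral_eq_sub_of_hasDeriv_right (f := fun τ => u τ x)
      (fun r hr => ((hd r (hsub hr)).continuousWithinAt).mono hsub) (fun r hr => ?_) ?_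
    · have hmin : a ≤ min s t := le_min hs.1 ht.1
      have hmax : max s t ≤ b := max_le hs.2 ht.2
      have hr' : r ∈ Ioo a b := ⟨lt_of_le_of_lt hmin hr.1, lt_of_lt_of_le hr.2 hmax⟩
      exact ((hd r (Ioo_subset_Icc_self hr')).hasDerivAt
        (Icc_mem_nhds hr'.1 hr'.2)).hasDerivWithinAt
    · have : Continuous (fun r => G r x) := by
        have h2 : Continuous (fun r : ℝ => ((r, x) : ℝ × ℝ)) := by fun_prop
        exact cG.comp h2
      exact this.intervalIntegrable _ _
  -- the integrability on the product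
  have hint : Integrable (Function.uncurry fun r x => G r x * θ x)
      ((volume.restrict (Set.uIoc s t)).prod volume) := by
    set K : Set ℝ := tsupport θ with hK
    have hKc : IsCompact K := hc
    obtain ⟨C, hC⟩ : ∃ C, ∀ p ∈ Icc a b ×ˢ K, ‖G p.1 p.2 * θ p.2‖ ≤ C :=
      ((isCompact_Icc.prod hKc)).exists_bound_of_continuousOn (by
        have : Continuous (fun p : ℝ × ℝ => G p.1 p.2 * θ p.2) := by fun_prop
        exact this.continuousOn)
    have hGc : ∀ r x, G r x = G (c r) x := by
      intro r x
      simp only [hG]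
      rw [hcr (c r) (hcm r)]
    have hbd : ∀ r x, ‖G r x * θ x‖ ≤ 1 * (K.indicator (fun _ => |C|) x) := by
      intro r x
      rw [one_mul]
      by_cases hx : x ∈ K
      · rw [indicator_of_mem hx, hGc]
        exact (hC (c r, x) ⟨hcm r, hx⟩).trans (le_abs_self C)
      · rw [indicator_of_notMem hx, image_eq_zero_of_notMem_tsupport hx, mul_zero, norm_zero]
    have hI : Integrable (fun p : ℝ × ℝ => (1 : ℝ) * (K.indicator (fun _ => |C|) p.2))
        ((volume.restrict (Set.uIoc s t)).prod volume) := by
      have h1 : Integrable (fun _ : ℝ => (1 : ℝ)) (volume.restrict (Set.uIoc s t)) := by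
        have : IsFiniteMeasure (volume.restrict (Set.uIoc s t)) := by
          refine ⟨?_⟩
          rw [Measure.restrict_apply_univ, Set.uIoc]
          exact measure_Ioc_lt_top
        exact integrable_const _
      have h2 : Integrable (K.indicator (fun _ => |C|)) (volume : Measure ℝ) := by
        rw [integrable_indicator_iff hKc.isClosed.measurableSet]
        exact integrableOn_const (hs := hKc.measure_lt_top.ne)
      exact h1.mul_prod h2
    refine hI.mono' ?_ (Filter.Eventually.of_forall fun p => hbd p.1 p.2)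
    have : Continuous (Function.uncurry fun r x => G r x * θ x) := by
      have : Continuous (fun p : ℝ × ℝ => G p.1 p.2 * θ p.2) := by fun_prop
      exact this
    exact this.aestronglyMeasurable
  have hsw := intervalIntegral_integral_swap hint
  -- left side
  have int : ∀ r ∈ Icc a b, Integrable (fun x => u r x * θ x) := fun r hr =>
    ((sm r hr).continuous.mul cθ).integrable_of_hasCompactSupport hc.mul_left
  rw [← integral_sub (int t ht) (int s hs)]
  have e1 : (fun x => u t x * θ x - u s x * θ x) = fun x => ∫ r in s..t, G r x * θ x := by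
    ext x
    rw [intervalIntegral.integral_mul_const, ftc x]
    ring
  rw [e1, ← hsw]
  refine intervalIntegral.integral_congr fun r hr => ?_
  have hr' : r ∈ Icc a b := uIcc_subset_Icc hs ht hr
  simp only [hG]
  rw [hcr r hr']
  exact ibp (sm r hr') hθ hc

end Pool.Agent.Helper25.KV
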