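import Pool.Agent.Helper41.KV.GoalsE

/-! # KV / WCOERC (MP_66be51_an): weighted coercivity with the logistic weight -/

set_option linter.unusedVariables false

namespace Pool.Agent.Helper89.KV.WCOERC

open Real MeasureTheory Pool.Agent.Helper41.KV

/-! ## General lemmas -/

theorem int_exp : Integrable (fun y : ℝ => Real.exp (-|y|)) := by
  refine (integrable_inv_one_add_sq.const_mul 2).mono' (by fun_prop) (Filter.Eventually.of_forall
    fun y => ?_)
  rw [Real.norm_eq_abs, abs_of_pos (Real.exp_pos _), Real.exp_neg]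
  have h1 := Real.quadratic_le_exp_of_nonneg (abs_nonneg y)
  rw [sq_abs] at h1
  have h2 := abs_nonneg y
  have h3 : (1 + y ^ 2) / 2 ≤ Real.exp |y| := by nlinarith [sq_nonneg y]
  have h4 : (0 : ℝ) < (1 + y ^ 2) / 2 := by positivity
  calc (Real.exp |y|)⁻¹ ≤ ((1 + y ^ 2) / 2)⁻¹ := inv_anti₀ h4 h3
    _ = 2 * (1 + y ^ 2)⁻¹ := by rw [inv_div]; ring

theorem memLp_half : MemLp (fun y : ℝ => Real.exp (-(|y| / 2))) 2 := by
  rw [memLp_two_iff_integrable_sq (by fun_prop)]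
  refine int_exp.congr (Filter.Eventually.of_forall fun y => ?_)
  simp only
  rw [← Real.exp_nat_mul]
  congr 1
  push_cast
  ring

theorem memLp_of_bound {f : ℝ → ℝ} (hf : Continuous f) {C : ℝ}
    (h : ∀ y, |f y| ≤ C * Real.exp (-|y|)) : MemLp f 2 := by
  refine memLp_half.of_le_mul (c := C) hf.aestronglyMeasurable
    (Filter.Eventually.of_forall fun y => ?_)
  have hC : 0 ≤ C := by
    have := (abs_nonneg _).trans (h 0)
    simpa using this
  rw [Real.norm_eq_abs, Real.norm_eq_abs, abs_of_pos (Real.exp_pos _)]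
  refine (h y).trans (mul_le_mul_of_nonneg_left ?_ hC)
  exact Real.exp_le_exp.2 (by have := abs_nonneg y; linarith)

/-- Cauchy-Schwarz -/
theorem cs {u w : ℝ → ℝ} (hu : MemLp u 2) (hw : MemLp w 2) :
    (∫ y, u y * w y) ^ 2 ≤ (∫ y, u y ^ 2) * ∫ y, w y ^ 2 := by
  have hu2 := hu.integrable_sq
  have hw2 := hw.integrable_sq
  have huw : Integrable (fun y => u y * w y) := hu.integrable_mul hw
  have h := discrim_le_zero (a := ∫ y, w y ^ 2) (b := 2 * ∫ y, u y * w y) (c := ∫ y, u y ^ 2)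
    (fun x => ?_)
  · unfold discrim at h
    nlinarith
  · have h1 : 0 ≤ ∫ y, (u y + x * w y) ^ 2 := integral_nonneg fun y => sq_nonneg _
    have h2 : ∫ y, (u y + x * w y) ^ 2 =
        (∫ y, u y ^ 2) + 2 * x * (∫ y, u y * w y) + x * x * ∫ y, w y ^ 2 := by
      have j1 : Integrable (fun y => u y ^ 2 + 2 * x * (u y * w y)) := hu2.add (huw.const_mul _)
      rw [← integral_const_mul, ← integral_const_mul, ← integral_add hu2 (huw.const_mul _),
        ← integral_add j1 (hw2.const_mul _)]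
      congr 1
      ext y
      ring
    rw [h2] at h1
    linarith

/-- the scalar product of `g = v f` with an exponentially decaying function orthogonal to `f` -/
theorem dot_bound {f g p : ℝ → ℝ} {ρ C : ℝ} (hρ : 0 ≤ ρ) (hf : MemLp f 2) (hg : MemLp g 2)
    (hp : MemLp p 2) (hpC : ∀ y, |p y| ≤ C * Real.exp (-|y|))
    (hfg : ∀ y, |g y - f y| ≤ ρ * Real.exp (|y| / 2) * |g y|) (h0 : (∫ y, f y * p y) = 0) :
    (∫ y, g y * p y) ^ 2 ≤ ρ ^ 2 * (C ^ 2 * ∫ y, Real.exp (-|y|)) * ∫ y, g y ^ 2 := by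
  have hC : 0 ≤ C := by
    have := (abs_nonneg _).trans (hpC 0)
    simpa using this
  have hgp : Integrable (fun y => g y * p y) := hg.integrable_mul hp
  have hfp : Integrable (fun y => f y * p y) := hf.integrable_mul hp
  have e1 : (∫ y, g y * p y) = ∫ y, (g y - f y) * p y := by
    have : (fun y => (g y - f y) * p y) = fun y => g y * p y - f y * p y := by ext y; ring
    rw [this, integral_sub hgp hfp, h0, sub_zero]
  have hga : MemLp (fun y => |g y|) 2 := hg.abs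
  have hint : Integrable (fun y => |g y| * Real.exp (-(|y| / 2))) := hga.integrable_mul memLp_half
  have e2 : |∫ y, g y * p y| ≤ ρ * C * ∫ y, |g y| * Real.exp (-(|y| / 2)) := by
    rw [e1]
    refine (abs_integral_le_integral_abs).trans ?_
    rw [← integral_const_mul]
    refine integral_mono_of_nonneg (Filter.Eventually.of_forall fun y => abs_nonneg _)
      (hint.const_mul _) (Filter.Eventually.of_forall fun y => ?_)
    simp only
    rw [abs_mul]
    have h1 : Real.exp (|y| / 2) * Real.exp (-|y|) = Real.exp (-(|y| / 2)) := by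
      rw [← Real.exp_add]; congr 1; ring
    calc |g y - f y| * |p y| ≤ (ρ * Real.exp (|y| / 2) * |g y|) * (C * Real.exp (-|y|)) :=
          mul_le_mul (hfg y) (hpC y) (abs_nonneg _) (by positivity)
      _ = ρ * C * (|g y| * (Real.exp (|y| / 2) * Real.exp (-|y|))) := by ring
      _ = ρ * C * (|g y| * Real.exp (-(|y| / 2))) := by rw [h1]
  have e3 := cs hga memLp_half
  have e4 : (∫ y, Real.exp (-(|y| / 2)) ^ 2) = ∫ y, Real.exp (-|y|) := by
    congr 1
    ext y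
    rw [← Real.exp_nat_mul]
    congr 1
    push_cast
    ring
  have e5 : (∫ y, |g y| ^ 2) = ∫ y, g y ^ 2 := by
    congr 1
    ext y
    exact sq_abs _
  rw [e4, e5] at e3
  have h0' : 0 ≤ ∫ y, |g y| * Real.exp (-(|y| / 2)) := integral_nonneg fun y => by positivity
  calc (∫ y, g y * p y) ^ 2 = |∫ y, g y * p y| ^ 2 := (sq_abs _).symm
    _ ≤ (ρ * C * ∫ y, |g y| * Real.exp (-(|y| / 2))) ^ 2 := by
        exact pow_le_pow_left₀ (abs_nonneg _) e2 2
    _ = (ρ * C) ^ 2 * (∫ y, |g y| * Real.exp (-(|y| / 2))) ^ 2 := by ring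
    _ ≤ (ρ * C) ^ 2 * ((∫ y, g y ^ 2) * ∫ y, Real.exp (-|y|)) :=
        mul_le_mul_of_nonneg_left e3 (sq_nonneg _)
    _ = _ := by ring

/-- the quadratic form after an almost orthogonal projection -/
theorem core {V p1 p2 : ℝ → ℝ} (hVc : Continuous V) (hV0 : ∀ y, 0 ≤ V y) (hV1 : ∀ y, V y ≤ 15)
    (hp1 : ContDiff ℝ 1 p1) (hp2 : ContDiff ℝ 1 p2) (m1 : MemLp p1 2) (m2 : MemLp p2 2)
    (m1' : MemLp (deriv p1) 2) (m2' : MemLp (deriv p2) 2) (h12 : (∫ y, p1 y * p2 y) = 0)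
    (hN1 : 0 < ∫ y, p1 y ^ 2) (hN2 : 0 < ∫ y, p2 y ^ 2)
    (hco : ∀ f : ℝ → ℝ, ContDiff ℝ 1 f → MemLp f 2 → MemLp (deriv f) 2 →
      (∫ y, f y * p1 y) = 0 → (∫ y, f y * p2 y) = 0 →
      (∫ y, (deriv f y ^ 2 + f y ^ 2)) ≤ 16 * ∫ y, (deriv f y ^ 2 + f y ^ 2 - V y * f y ^ 2))
    (B : ℝ) (hB : 0 ≤ B) :
    ∃ C : ℝ, 0 ≤ C ∧ ∀ (g : ℝ → ℝ) (ρ : ℝ), ContDiff ℝ 1 g → MemLp g 2 → MemLp (deriv g) 2 →
      (∫ y, g y * p1 y) ^ 2 ≤ ρ ^ 2 * B * (∫ y, g y ^ 2) →
      (∫ y, g y * p2 y) ^ 2 ≤ ρ ^ 2 * B * (∫ y, g y ^ 2) →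
      (1 / 16 - 1 / 200 - C * ρ ^ 2) * (∫ y, (deriv g y ^ 2 + g y ^ 2)) ≤
        ∫ y, (deriv g y ^ 2 + g y ^ 2 - V y * g y ^ 2) := by
  set N1 := ∫ y, p1 y ^ 2 with hN1d
  set N2 := ∫ y, p2 y ^ 2 with hN2d
  set H1 := ∫ y, (deriv p1 y ^ 2 + p1 y ^ 2) with hH1
  set H2 := ∫ y, (deriv p2 y ^ 2 + p2 y ^ 2) with hH2
  have hH1n : 0 ≤ H1 := integral_nonneg fun y => by positivity
  have hH2n : 0 ≤ H2 := integral_nonneg fun y => by positivity
  have hc1 : Continuous (deriv p1) := hp1.continuous_deriv le_rfl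
  have hc2 : Continuous (deriv p2) := hp2.continuous_deriv le_rfl
  have i1 := m1.integrable_sq
  have i2 := m2.integrable_sq
  have i1' := m1'.integrable_sq
  have i2' := m2'.integrable_sq
  -- the constant
  refine ⟨200000 * (2 * B / N1 ^ 2 * H1 + 2 * B / N2 ^ 2 * H2), by positivity, ?_⟩
  intro g ρ hgc hg hg' hd1 hd2
  set A := ∫ y, g y ^ 2 with hA
  have hA0 : 0 ≤ A := integral_nonneg fun y => sq_nonneg _
  set a := (∫ y, g y * p1 y) / N1 with ha
  set b := (∫ y, g y * p2 y) / N2 with hb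
  have ha2 : a ^ 2 ≤ ρ ^ 2 * B * A / N1 ^ 2 := by
    rw [ha, div_pow]
    exact div_le_div_of_nonneg_right hd1 (by positivity)
  have hb2 : b ^ 2 ≤ ρ ^ 2 * B * A / N2 ^ 2 := by
    rw [hb, div_pow]
    exact div_le_div_of_nonneg_right hd2 (by positivity)
  -- the projection
  set g1 : ℝ → ℝ := fun y => g y - (a * p1 y + b * p2 y) with hg1
  have hd : ∀ y, deriv g1 y = deriv g y - (a * deriv p1 y + b * deriv p2 y) := by
    intro y
    have e1 : HasDerivAt g (deriv g y) y := (hgc.differentiable one_ne_zero y).hasDerivAt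
    have e2 : HasDerivAt p1 (deriv p1 y) y := (hp1.differentiable one_ne_zero y).hasDerivAt
    have e3 : HasDerivAt p2 (deriv p2 y) y := (hp2.differentiable one_ne_zero y).hasDerivAt
    exact (e1.sub ((e2.const_mul a).add (e3.const_mul b))).deriv
  have hdf : deriv g1 = fun y => deriv g y - (a * deriv p1 y + b * deriv p2 y) := funext hd
  have hg1c : ContDiff ℝ 1 g1 := by fun_prop
  have mg1 : MemLp g1 2 := hg.sub ((m1.const_mul a).add (m2.const_mul b))
  have mg1' : MemLp (deriv g1) 2 := by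
    rw [hdf]
    exact hg'.sub ((m1'.const_mul a).add (m2'.const_mul b))
  have gp1 : Integrable (fun y => g y * p1 y) := hg.integrable_mul m1
  have gp2 : Integrable (fun y => g y * p2 y) := hg.integrable_mul m2
  have p12 : Integrable (fun y => p1 y * p2 y) := m1.integrable_mul m2
  have o1 : (∫ y, g1 y * p1 y) = 0 := by
    have : (fun y => g1 y * p1 y) = fun y => g y * p1 y - (a * p1 y ^ 2 + b * (p1 y * p2 y)) := by
      ext y; simp only [hg1]; ring
    have j1 : Integrable (fun y => a * p1 y ^ 2 + b * (p1 y * p2 y)) :=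
      (i1.const_mul a).add (p12.const_mul b)
    rw [this, integral_sub gp1 j1,
      integral_add (i1.const_mul a) (p12.const_mul b), integral_const_mul, integral_const_mul, h12,
      ha, ← hN1d]
    field_simp
    ring
  have o2 : (∫ y, g1 y * p2 y) = 0 := by
    have : (fun y => g1 y * p2 y) = fun y => g y * p2 y - (a * (p1 y * p2 y) + b * p2 y ^ 2) := by
      ext y; simp only [hg1]; ring
    have j1 : Integrable (fun y => a * (p1 y * p2 y) + b * p2 y ^ 2) :=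
      (p12.const_mul a).add (i2.const_mul b)
    rw [this, integral_sub gp2 j1,
      integral_add (p12.const_mul a) (i2.const_mul b), integral_const_mul, integral_const_mul, h12,
      hb, ← hN2d]
    field_simp
    ring
  have hco1 := hco g1 hg1c mg1 mg1' o1 o2
  -- integrability
  have ig := hg.integrable_sq
  have ig' := hg'.integrable_sq
  have ig1 := mg1.integrable_sq
  have ig1' := mg1'.integrable_sq
  have hbd : ∀ {u : ℝ → ℝ}, MemLp u 2 → Integrable (fun y => V y * u y ^ 2) := by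
    intro u hu
    refine (hu.integrable_sq.const_mul 15).mono'
      (hVc.aestronglyMeasurable.mul hu.integrable_sq.aestronglyMeasurable)
      (Filter.Eventually.of_forall fun y => ?_)
    rw [Real.norm_eq_abs, abs_of_nonneg (mul_nonneg (hV0 y) (sq_nonneg _))]
    exact mul_le_mul_of_nonneg_right (hV1 y) (sq_nonneg _)
  have iVg := hbd hg
  have iVg1 := hbd mg1
  have iE1 : Integrable (fun y => deriv p1 y ^ 2 + p1 y ^ 2) := i1'.add i1
  have iE2 : Integrable (fun y => deriv p2 y ^ 2 + p2 y ^ 2) := i2'.add i2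
  have iG : Integrable (fun y => deriv g y ^ 2 + g y ^ 2) := ig'.add ig
  have iG1 : Integrable (fun y => deriv g1 y ^ 2 + g1 y ^ 2) := ig1'.add ig1
  have iL : Integrable (fun y => deriv g y ^ 2 + g y ^ 2 - V y * g y ^ 2) := iG.sub iVg
  have iL1 : Integrable (fun y => deriv g1 y ^ 2 + g1 y ^ 2 - V y * g1 y ^ 2) := iG1.sub iVg1
  -- the total of `h`
  set T := 2 * a ^ 2 * H1 + 2 * b ^ 2 * H2 with hT
  have hTle : T ≤ (2 * B / N1 ^ 2 * H1 + 2 * B / N2 ^ 2 * H2) * ρ ^ 2 * A := by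
    have e1 : 2 * a ^ 2 * H1 ≤ 2 * (ρ ^ 2 * B * A / N1 ^ 2) * H1 := by gcongr
    have e2 : 2 * b ^ 2 * H2 ≤ 2 * (ρ ^ 2 * B * A / N2 ^ 2) * H2 := by gcongr
    calc T ≤ 2 * (ρ ^ 2 * B * A / N1 ^ 2) * H1 + 2 * (ρ ^ 2 * B * A / N2 ^ 2) * H2 := by
          rw [hT]; linarith
      _ = _ := by ring
  have hhint : Integrable (fun y => 2 * a ^ 2 * (deriv p1 y ^ 2 + p1 y ^ 2) +
      2 * b ^ 2 * (deriv p2 y ^ 2 + p2 y ^ 2)) := (iE1.const_mul _).add (iE2.const_mul _)
  have hhval : (∫ y, (2 * a ^ 2 * (deriv p1 y ^ 2 + p1 y ^ 2) +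
      2 * b ^ 2 * (deriv p2 y ^ 2 + p2 y ^ 2))) = T := by
    rw [integral_add (iE1.const_mul _) (iE2.const_mul _), integral_const_mul, integral_const_mul]
  -- pointwise bound for `h`
  have hh : ∀ y, (a * deriv p1 y + b * deriv p2 y) ^ 2 + (a * p1 y + b * p2 y) ^ 2 ≤
      2 * a ^ 2 * (deriv p1 y ^ 2 + p1 y ^ 2) + 2 * b ^ 2 * (deriv p2 y ^ 2 + p2 y ^ 2) := by
    intro y
    nlinarith [sq_nonneg (a * deriv p1 y - b * deriv p2 y), sq_nonneg (a * p1 y - b * p2 y)]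
  -- pointwise comparison of the forms
  have k1 : ∀ y, (deriv g1 y ^ 2 + g1 y ^ 2 - V y * g1 y ^ 2) -
      (1 / 400) * (deriv g1 y ^ 2 + g1 y ^ 2) - 100000 *
      (2 * a ^ 2 * (deriv p1 y ^ 2 + p1 y ^ 2) + 2 * b ^ 2 * (deriv p2 y ^ 2 + p2 y ^ 2)) ≤
      deriv g y ^ 2 + g y ^ 2 - V y * g y ^ 2 := by
    intro y
    have e1 : g y = g1 y + (a * p1 y + b * p2 y) := by simp only [hg1]; ring
    have e2 : deriv g y = deriv g1 y + (a * deriv p1 y + b * deriv p2 y) := by rw [hd]; ring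
    have e3 := hh y
    rw [e1, e2]
    generalize g1 y = u at *
    generalize deriv g1 y = u' at *
    generalize a * p1 y + b * p2 y = h at *
    generalize a * deriv p1 y + b * deriv p2 y = h' at *
    have hv0 := hV0 y
    have hv1 := hV1 y
    generalize V y = v at *
    have e4 : 0 ≤ (1 / 400) * u ^ 2 + 2 * (1 - v) * u * h + 90000 * h ^ 2 := by
      have e7 : (1 - v) ^ 2 ≤ 196 := by
        have : (1 - v) ^ 2 - 196 = (v - 15) * (v + 13) := by ring
        have := mul_nonneg (sub_nonneg.2 hv1) (by linarith : (0 : ℝ) ≤ v + 13)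
        linarith
      have e8 : (1 / 400) * u ^ 2 + 2 * (1 - v) * u * h + 90000 * h ^ 2 =
          (u / 20 + 20 * (1 - v) * h) ^ 2 + (90000 - 400 * (1 - v) ^ 2) * h ^ 2 := by ring
      rw [e8]
      have e9 : 0 ≤ 90000 - 400 * (1 - v) ^ 2 := by linarith
      positivity
    have e5 : 0 ≤ (1 / 400) * u' ^ 2 + 2 * u' * h' + 400 * h' ^ 2 := by
      have : (1 / 400) * u' ^ 2 + 2 * u' * h' + 400 * h' ^ 2 = (u' / 20 + 20 * h') ^ 2 := by ring
      rw [this]; positivity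
    have e6 : 0 ≤ (15 - v) * h ^ 2 := mul_nonneg (by linarith) (sq_nonneg h)
    have e10 := sq_nonneg h
    have e11 := sq_nonneg h'
    linarith
  have k2 : ∀ y, (1 - 1 / 400) * (deriv g y ^ 2 + g y ^ 2) - 400 *
      (2 * a ^ 2 * (deriv p1 y ^ 2 + p1 y ^ 2) + 2 * b ^ 2 * (deriv p2 y ^ 2 + p2 y ^ 2)) ≤
      deriv g1 y ^ 2 + g1 y ^ 2 := by
    intro y
    have e1 : g1 y = g y - (a * p1 y + b * p2 y) := rfl
    have e3 := hh y
    rw [e1, hd]
    generalize g y = u at *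
    generalize deriv g y = u' at *
    generalize a * p1 y + b * p2 y = h at *
    generalize a * deriv p1 y + b * deriv p2 y = h' at *
    have e4 := sq_nonneg (u / 20 - 20 * h)
    have e5 := sq_nonneg (u' / 20 - 20 * h')
    have e6 := sq_nonneg h
    have e7 := sq_nonneg h'
    linarith
  have j1 : Integrable (fun y => (deriv g1 y ^ 2 + g1 y ^ 2 - V y * g1 y ^ 2) -
      (1 / 400) * (deriv g1 y ^ 2 + g1 y ^ 2)) := iL1.sub (iG1.const_mul (1 / 400))
  have K1 := integral_mono (j1.sub (hhint.const_mul 100000)) iL k1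
  have K2 := integral_mono ((iG.const_mul (1 - 1 / 400)).sub (hhint.const_mul 400)) iG1 k2
  simp only [Pi.sub_apply] at K1 K2
  rw [integral_sub j1 (hhint.const_mul 100000),
    integral_sub iL1 (iG1.const_mul (1 / 400)), integral_const_mul, integral_const_mul, hhval] at K1
  rw [integral_sub (iG.const_mul (1 - 1 / 400)) (hhint.const_mul 400), integral_const_mul,
    integral_const_mul, hhval] at K2
  have hAG : A ≤ ∫ y, (deriv g y ^ 2 + g y ^ 2) := by
    refine integral_mono ig iG fun y => ?_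
    simp only
    nlinarith [sq_nonneg (deriv g y)]
  set G := ∫ y, (deriv g y ^ 2 + g y ^ 2) with hG
  set G1 := ∫ y, (deriv g1 y ^ 2 + g1 y ^ 2) with hG1
  set L1 := ∫ y, (deriv g1 y ^ 2 + g1 y ^ 2 - V y * g1 y ^ 2) with hL1
  set L := ∫ y, (deriv g y ^ 2 + g y ^ 2 - V y * g y ^ 2) with hL
  set c := 2 * B / N1 ^ 2 * H1 + 2 * B / N2 ^ 2 * H2 with hc
  have hc0 : 0 ≤ c := by positivity
  have hTG : T ≤ c * ρ ^ 2 * G := hTle.trans (mul_le_mul_of_nonneg_left hAG (by positivity))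
  have hG0 : 0 ≤ G := hA0.trans hAG
  have hTG0 : 0 ≤ c * ρ ^ 2 * G := by positivity
  linarith

theorem bdd_int {w u : ℝ → ℝ} {c : ℝ} (hw : Continuous w) (h0 : ∀ y, 0 ≤ w y) (h1 : ∀ y, w y ≤ c)
    (hu : Integrable u) : Integrable (fun y => w y * u y) := by
  refine (hu.norm.const_mul c).mono' (hw.aestronglyMeasurable.mul hu.aestronglyMeasurable)
      (Filter.Eventually.of_forall fun y => ?_)
  rw [norm_mul, Real.norm_eq_abs (w y), abs_of_nonneg (h0 y)]
  exact mul_le_mul_of_nonneg_right (h1 y) (norm_nonneg _)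

/-- facts on the weight -/
theorem wt_facts {K ρ : ℝ} (hK : 64 ≤ K) (hρ : 0 < ρ) :
    (∀ y, 0 < wt K ρ y) ∧ (∀ y, wt K ρ y < 1) ∧ ContDiff ℝ 1 (wt K ρ) ∧
    (∀ y, HasDerivAt (wt K ρ) (wt K ρ y * (1 - wt K ρ y) / K) y) ∧
    (∀ y, wt K ρ y * (1 + ρ * Real.exp (-(y / K))) = 1) := by
  have hK0 : 0 < K := by linarith
  have hE : ∀ y, 0 < ρ * Real.exp (-(y / K)) := fun y => mul_pos hρ (Real.exp_pos _)
  have hE1 : ∀ y, 0 < 1 + ρ * Real.exp (-(y / K)) := fun y => by linarith [hE y]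
  refine ⟨fun y => ?_, fun y => ?_, ?_, fun y => ?_, fun y => ?_⟩
  · exact div_pos one_pos (hE1 y)
  · unfold wt
    rw [div_lt_one (hE1 y)]
    linarith [hE y]
  · have : ContDiff ℝ 1 (fun y : ℝ => 1 / (1 + ρ * Real.exp (-(y / K)))) := by
      refine contDiff_const.div ?_ fun y => (hE1 y).ne'
      fun_prop
    exact this
  · have h1 : HasDerivAt (fun y : ℝ => 1 + ρ * Real.exp (-(y / K)))
        (ρ * (Real.exp (-(y / K)) * (-(1 / K)))) y := by
      have h2 : HasDerivAt (fun y : ℝ => -(y / K)) (-(1 / K)) y :=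
        ((hasDerivAt_id y).div_const K).neg
      exact (h2.exp.const_mul ρ).const_add 1
    have h3 := h1.inv (hE1 y).ne'
    have h4 : (fun y : ℝ => (1 + ρ * Real.exp (-(y / K)))⁻¹) = wt K ρ := by
      ext y; unfold wt; rw [one_div]
    have h5 : HasDerivAt (wt K ρ)
        (-(ρ * (Real.exp (-(y / K)) * (-(1 / K)))) / (1 + ρ * Real.exp (-(y / K))) ^ 2) y := by
      rw [← h4]; exact h3
    refine h5.congr_deriv ?_
    unfold wt
    have := (hE1 y).ne'
    field_simp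
    ring
  · unfold wt
    have := (hE1 y).ne'
    field_simp

/-- pointwise bounds for `g = v f` -/
theorem pw1 {K φ v s x x' V : ℝ} (hK : 64 ≤ K) (h0 : 0 < φ) (hv : v ^ 2 = φ)
    (hs0 : 0 ≤ s) (hs : s ≤ 1 / (2 * K)) :
    (v * s * x + v * x') ^ 2 + (v * x) ^ 2 - V * (v * x) ^ 2 ≤
      φ * (x' ^ 2 + x ^ 2 - V * x ^ 2) + (1 / K) * (φ * (x' ^ 2 + x ^ 2)) := by
  have hK0 : 0 < K := by linarith
  have e1 : (v * s * x + v * x') ^ 2 + (v * x) ^ 2 - V * (v * x) ^ 2 =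
      φ * ((s * x + x') ^ 2 + x ^ 2 - V * x ^ 2) := by rw [← hv]; ring
  rw [e1]
  have h1 : s ≤ 1 := hs.trans (by rw [div_le_one (by linarith)]; linarith)
  have h2 : 2 * s ≤ 1 / K := by
    calc 2 * s ≤ 2 * (1 / (2 * K)) := by linarith
      _ = 1 / K := by field_simp
  have h3 : (s * x + x') ^ 2 ≤ x' ^ 2 + 2 * s * (x' ^ 2 + x ^ 2) := by
    nlinarith [mul_nonneg hs0 (sq_nonneg (x - x')), mul_nonneg hs0 (sq_nonneg x),
      mul_nonneg (mul_nonneg hs0 (sub_nonneg.2 h1)) (sq_nonneg x), mul_nonneg hs0 (sq_nonneg x')]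
  have h4 : 2 * s * (x' ^ 2 + x ^ 2) ≤ (1 / K) * (x' ^ 2 + x ^ 2) :=
    mul_le_mul_of_nonneg_right h2 (by positivity)
  have h5 := mul_le_mul_of_nonneg_left (h3.trans (add_le_add_right h4 (x' ^ 2))) h0.le
  nlinarith

theorem pw2 {K φ v s x x' : ℝ} (hK : 64 ≤ K) (h0 : 0 < φ) (hv : v ^ 2 = φ)
    (hs0 : 0 ≤ s) (hs : s ≤ 1 / (2 * K)) :
    (1 - 1 / K) * (φ * (x' ^ 2 + x ^ 2)) ≤ (v * s * x + v * x') ^ 2 + (v * x) ^ 2 := by
  have hK0 : 0 < K := by linarith
  have e1 : (v * s * x + v * x') ^ 2 + (v * x) ^ 2 =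
      φ * ((s * x + x') ^ 2 + x ^ 2) := by rw [← hv]; ring
  rw [e1]
  have h2 : s ≤ 1 / K := by
    have : 2 * s ≤ 1 / K := by
      calc 2 * s ≤ 2 * (1 / (2 * K)) := by linarith
        _ = 1 / K := by field_simp
    linarith
  have h3 : x' ^ 2 - s * (x' ^ 2 + x ^ 2) ≤ (s * x + x') ^ 2 := by
    nlinarith [mul_nonneg hs0 (sq_nonneg (x + x')), sq_nonneg (s * x)]
  have h4 : s * (x' ^ 2 + x ^ 2) ≤ (1 / K) * (x' ^ 2 + x ^ 2) :=
    mul_le_mul_of_nonneg_right h2 (by positivity)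
  have h6 : x' ^ 2 - (1 / K) * (x' ^ 2 + x ^ 2) ≤ (s * x + x') ^ 2 := by linarith
  have h5 := mul_le_mul_of_nonneg_left h6 h0.le
  nlinarith

/-- the abstract weighted coercivity -/
theorem abstractW {V p1 p2 : ℝ → ℝ} (hVc : Continuous V) (hV0 : ∀ y, 0 ≤ V y)
    (hV1 : ∀ y, V y ≤ 15)
    (hp1 : ContDiff ℝ 1 p1) (hp2 : ContDiff ℝ 1 p2) {c1 c2 : ℝ}
    (b1 : ∀ y, |p1 y| ≤ c1 * Real.exp (-|y|)) (b2 : ∀ y, |p2 y| ≤ c2 * Real.exp (-|y|))
    (m1' : MemLp (deriv p1) 2) (m2' : MemLp (deriv p2) 2) (h12 : (∫ y, p1 y * p2 y) = 0)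
    (hN1 : 0 < ∫ y, p1 y ^ 2) (hN2 : 0 < ∫ y, p2 y ^ 2)
    (hco : ∀ f : ℝ → ℝ, ContDiff ℝ 1 f → MemLp f 2 → MemLp (deriv f) 2 →
      (∫ y, f y * p1 y) = 0 → (∫ y, f y * p2 y) = 0 →
      (∫ y, (deriv f y ^ 2 + f y ^ 2)) ≤ 16 * ∫ y, (deriv f y ^ 2 + f y ^ 2 - V y * f y ^ 2))
    (K : ℝ) (hK : 64 ≤ K) : ∃ ρ0 : ℝ, 0 < ρ0 ∧ ∀ ρ : ℝ, 0 < ρ → ρ ≤ ρ0 →
      ∀ f : ℝ → ℝ, ContDiff ℝ 1 f → MemLp f 2 → MemLp (deriv f) 2 →
      (∫ y, f y * p1 y) = 0 → (∫ y, f y * p2 y) = 0 →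
      (∫ y, wt K ρ y * (deriv f y ^ 2 + f y ^ 2)) ≤
        32 * ∫ y, wt K ρ y * (deriv f y ^ 2 + f y ^ 2 - V y * f y ^ 2) := by
  have hK0 : 0 < K := by linarith
  have m1 : MemLp p1 2 := memLp_of_bound hp1.continuous b1
  have m2 : MemLp p2 2 := memLp_of_bound hp2.continuous b2
  have hI : 0 ≤ ∫ y : ℝ, Real.exp (-|y|) := integral_nonneg fun y => (Real.exp_pos _).le
  obtain ⟨C, hC0, hC⟩ := core hVc hV0 hV1 hp1 hp2 m1 m2 m1' m2' h12 hN1 hN2 hco
    ((c1 ^ 2 + c2 ^ 2) * ∫ y : ℝ, Real.exp (-|y|)) (by positivity)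
  refine ⟨min 1 (1 / (200 * (C + 1))), lt_min one_pos (by positivity), ?_⟩
  intro ρ hρ hρ0 f hfc hf hf' o1 o2
  have hρ1 : ρ ≤ 1 := hρ0.trans (min_le_left _ _)
  have hρ2 : ρ ≤ 1 / (200 * (C + 1)) := hρ0.trans (min_le_right _ _)
  have hCρ : C * ρ ^ 2 ≤ 1 / 200 := by
    have e1 : ρ ^ 2 ≤ ρ := by nlinarith
    have e2 : (C + 1) * ρ ≤ 1 / 200 := by
      calc (C + 1) * ρ ≤ (C + 1) * (1 / (200 * (C + 1))) :=
            mul_le_mul_of_nonneg_left hρ2 (by linarith)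
        _ = 1 / 200 := by field_simp
    nlinarith
  obtain ⟨w0, w1, wC, wd, wE⟩ := wt_facts hK hρ
  set φ : ℝ → ℝ := wt K ρ with hφ
  set v : ℝ → ℝ := fun y => Real.sqrt (φ y) with hv
  have hv2 : ∀ y, v y ^ 2 = φ y := fun y => Real.sq_sqrt (w0 y).le
  have hvp : ∀ y, 0 < v y := fun y => Real.sqrt_pos.2 (w0 y)
  have hv1 : ∀ y, v y ≤ 1 := fun y => by
    have := hv2 y
    have := w1 y
    nlinarith [hvp y]
  set s : ℝ → ℝ := fun y => (1 - φ y) / (2 * K) with hs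
  have hs0 : ∀ y, 0 ≤ s y := fun y => div_nonneg (by linarith [w1 y]) (by linarith)
  have hs1 : ∀ y, s y ≤ 1 / (2 * K) := fun y =>
    div_le_div_of_nonneg_right (by linarith [w0 y]) (by linarith)
  have hvd : ∀ y, HasDerivAt v (v y * s y) y := by
    intro y
    have h1 := (wd y).sqrt (w0 y).ne'
    refine h1.congr_deriv ?_
    have h2 := hv2 y
    have h3 := (hvp y).ne'
    change φ y * (1 - φ y) / K / (2 * v y) = v y * ((1 - φ y) / (2 * K))
    rw [div_div, div_eq_iff (by positivity)]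
    field_simp
    rw [← h2]
    ring
  set g : ℝ → ℝ := fun y => v y * f y with hg
  have hfd : ∀ y, HasDerivAt f (deriv f y) y := fun y =>
    (hfc.differentiable one_ne_zero y).hasDerivAt
  have hgd : ∀ y, deriv g y = v y * s y * f y + v y * deriv f y := fun y =>
    ((hvd y).mul (hfd y)).deriv
  have hvC : ContDiff ℝ 1 v := wC.sqrt fun y => (w0 y).ne'
  have hgC : ContDiff ℝ 1 g := hvC.mul hfc
  have mg : MemLp g 2 := by
    refine hf.mono hgC.continuous.aestronglyMeasurable (Filter.Eventually.of_forall fun y => ?_)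
    rw [Real.norm_eq_abs, Real.norm_eq_abs]
    change |v y * f y| ≤ |f y|
    rw [abs_mul, abs_of_pos (hvp y)]
    exact mul_le_of_le_one_left (abs_nonneg _) (hv1 y)
  have mg' : MemLp (deriv g) 2 := by
    refine (hf.norm.add hf'.norm).mono (hgC.continuous_deriv le_rfl).aestronglyMeasurable
      (Filter.Eventually.of_forall fun y => ?_)
    rw [hgd y, Real.norm_eq_abs]
    refine le_trans (b := |f y| + |deriv f y|) ?_ (le_abs_self _)
    refine (abs_add_le _ _).trans (add_le_add ?_ ?_)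
    · rw [abs_mul, abs_mul, abs_of_pos (hvp y), abs_of_nonneg (hs0 y)]
      refine mul_le_of_le_one_left (abs_nonneg _) ?_
      have e1 : s y ≤ 1 := (hs1 y).trans (by rw [div_le_one (by linarith)]; linarith)
      nlinarith [hvp y, hs0 y, hv1 y]
    · rw [abs_mul, abs_of_pos (hvp y)]
      exact mul_le_of_le_one_left (abs_nonneg _) (hv1 y)
  have hgf : ∀ y, |g y - f y| ≤ ρ * Real.exp (|y| / 2) * |g y| := by
    intro y
    have e1 : g y - f y = -((1 - v y) * f y) := by simp only [hg]; ring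
    have e2 : 0 ≤ 1 - v y := by linarith [hv1 y]
    rw [e1, abs_neg, abs_mul, abs_of_nonneg e2]
    have e3 : |g y| = v y * |f y| := by
      simp only [hg]; rw [abs_mul, abs_of_pos (hvp y)]
    rw [e3]
    have e4 : 1 - v y ≤ ρ * Real.exp (-(y / K)) * v y := by
      have e5 := wE y
      rw [← hv2 y] at e5
      have e6 := hvp y
      have e7 : v y * (1 - v y) ≤ v y * (ρ * Real.exp (-(y / K)) * v y) := by nlinarith
      exact le_of_mul_le_mul_left e7 e6
    have e8 : Real.exp (-(y / K)) ≤ Real.exp (|y| / 2) := by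
      refine Real.exp_le_exp.2 ?_
      rw [← neg_div, div_le_div_iff₀ hK0 two_pos]
      have e9 := neg_le_abs y
      have e10 := abs_nonneg y
      nlinarith
    calc (1 - v y) * |f y| ≤ (ρ * Real.exp (-(y / K)) * v y) * |f y| :=
          mul_le_mul_of_nonneg_right e4 (abs_nonneg _)
      _ ≤ (ρ * Real.exp (|y| / 2) * v y) * |f y| := by
          have := hvp y
          gcongr
      _ = _ := by ring
  have d1 := dot_bound hρ.le hf mg m1 b1 hgf o1
  have d2 := dot_bound hρ.le hf mg m2 b2 hgf o2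
  have hA0 : 0 ≤ ∫ y, g y ^ 2 := integral_nonneg fun y => sq_nonneg _
  have hmain := hC g ρ hgC mg mg' (d1.trans (by
    refine mul_le_mul_of_nonneg_right (mul_le_mul_of_nonneg_left (mul_le_mul_of_nonneg_right ?_ hI)
      (sq_nonneg _)) hA0
    nlinarith [sq_nonneg c2])) (d2.trans (by
    refine mul_le_mul_of_nonneg_right (mul_le_mul_of_nonneg_left (mul_le_mul_of_nonneg_right ?_ hI)
      (sq_nonneg _)) hA0
    nlinarith [sq_nonneg c1]))
  -- integrability
  have iF : Integrable (fun y => deriv f y ^ 2 + f y ^ 2) := hf'.integrable_sq.add hf.integrable_sq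
  have iVf : Integrable (fun y => V y * f y ^ 2) := bdd_int hVc hV0 hV1 hf.integrable_sq
  have iVg : Integrable (fun y => V y * g y ^ 2) := bdd_int hVc hV0 hV1 mg.integrable_sq
  have iLf : Integrable (fun y => deriv f y ^ 2 + f y ^ 2 - V y * f y ^ 2) := iF.sub iVf
  have iG : Integrable (fun y => deriv g y ^ 2 + g y ^ 2) := mg'.integrable_sq.add mg.integrable_sq
  have iLg : Integrable (fun y => deriv g y ^ 2 + g y ^ 2 - V y * g y ^ 2) := iG.sub iVg
  have iM : Integrable (fun y => φ y * (deriv f y ^ 2 + f y ^ 2)) :=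
    bdd_int wC.continuous (fun y => (w0 y).le) (fun y => (w1 y).le) iF
  have iW : Integrable (fun y => φ y * (deriv f y ^ 2 + f y ^ 2 - V y * f y ^ 2)) :=
    bdd_int wC.continuous (fun y => (w0 y).le) (fun y => (w1 y).le) iLf
  have q1 : ∀ y, deriv g y ^ 2 + g y ^ 2 - V y * g y ^ 2 ≤
      φ y * (deriv f y ^ 2 + f y ^ 2 - V y * f y ^ 2) +
        (1 / K) * (φ y * (deriv f y ^ 2 + f y ^ 2)) := by
    intro y
    rw [hgd y]
    exact pw1 hK (w0 y) (hv2 y) (hs0 y) (hs1 y)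
  have q2 : ∀ y, (1 - 1 / K) * (φ y * (deriv f y ^ 2 + f y ^ 2)) ≤ deriv g y ^ 2 + g y ^ 2 := by
    intro y
    rw [hgd y]
    exact pw2 hK (w0 y) (hv2 y) (hs0 y) (hs1 y)
  have j2 : Integrable (fun y => φ y * (deriv f y ^ 2 + f y ^ 2 - V y * f y ^ 2) +
        (1 / K) * (φ y * (deriv f y ^ 2 + f y ^ 2))) := iW.add (iM.const_mul _)
  have Q1 := integral_mono iLg j2 q1
  have Q2 := integral_mono (iM.const_mul _) iG q2
  rw [integral_add iW (iM.const_mul _), integral_const_mul] at Q1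
  rw [integral_const_mul] at Q2
  have hM0 : 0 ≤ ∫ y, φ y * (deriv f y ^ 2 + f y ^ 2) :=
    integral_nonneg fun y => mul_nonneg (w0 y).le (by positivity)
  have hG0 : 0 ≤ ∫ y, (deriv g y ^ 2 + g y ^ 2) := integral_nonneg fun y => by positivity
  set M := ∫ y, φ y * (deriv f y ^ 2 + f y ^ 2) with hM
  set G := ∫ y, (deriv g y ^ 2 + g y ^ 2) with hG
  set W := ∫ y, φ y * (deriv f y ^ 2 + f y ^ 2 - V y * f y ^ 2) with hW
  set L := ∫ y, (deriv g y ^ 2 + g y ^ 2 - V y * g y ^ 2) with hL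
  have hKi : 1 / K ≤ 1 / 64 := one_div_le_one_div_of_le (by norm_num) hK
  have hKi0 : 0 < 1 / K := by positivity
  have r1 : (1 / 16 - 1 / 100) * G ≤ L := by
    refine le_trans ?_ hmain
    exact mul_le_mul_of_nonneg_right (by linarith) hG0
  have r2 : (1 - 1 / 64) * M ≤ G := le_trans (mul_le_mul_of_nonneg_right (by linarith) hM0) Q2
  have r3 : 1 / K * M ≤ 1 / 64 * M := mul_le_mul_of_nonneg_right hKi hM0
  linarith

end Pool.Agent.Helper89.KV.WCOERC

namespace Pool.Agent.Helper41.KV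

open Real MeasureTheory Pool.Agent.Helper89.KV.WCOERC

theorem thm_WCOERC (hQ : S_QF) (hC : S_COERC) : S_WCOERC := by
  obtain ⟨hsm, hpos, heven, hQ4, hQ1, hQ2, hdec, hlow⟩ := hQ
  intro K hK
  obtain ⟨C0, hC0⟩ := hdec 0
  obtain ⟨C1, hC1⟩ := hdec 1
  obtain ⟨C2, hC2⟩ := hdec 2
  simp only [iteratedDeriv_zero] at hC0
  simp only [iteratedDeriv_one] at hC1
  have h2 : iteratedDeriv 2 Q = deriv (deriv Q) := by
    rw [iteratedDeriv_succ, iteratedDeriv_one]
  rw [h2] at hC2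
  have hC0n : 0 ≤ C0 := by
    have := (abs_nonneg _).trans (hC0 0)
    simpa using this
  have hC1n : 0 ≤ C1 := by
    have := (abs_nonneg _).trans (hC1 0)
    simpa using this
  have he1 : ∀ y : ℝ, Real.exp (-|y|) ≤ 1 := fun y => by
    rw [Real.exp_le_one_iff]; linarith [abs_nonneg y]
  have hQb : ∀ y, Q y ≤ C0 * Real.exp (-|y|) := fun y => (le_abs_self _).trans (hC0 y)
  have hQb1 : ∀ y, Q y ≤ C0 := fun y => (hQb y).trans
    (mul_le_of_le_one_right hC0n (he1 y))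
  have hd1 : ContDiff ℝ 1 Q := hsm.of_le (by exact_mod_cast le_top)
  have hsm' : ContDiff ℝ 1 (deriv Q) :=
    ((contDiff_infty_iff_deriv.1 hsm).2).of_le (by exact_mod_cast le_top)
  have hQd : ∀ y, HasDerivAt Q (deriv Q y) y := fun y =>
    (hd1.differentiable one_ne_zero y).hasDerivAt
  have hp1 : ContDiff ℝ 1 (fun y => Q y ^ 3) := hd1.pow 3
  have hp1d : deriv (fun y => Q y ^ 3) = fun y => 3 * Q y ^ 2 * deriv Q y := by
    ext y
    have h3 : HasDerivAt (fun y => Q y ^ 3) (((3 : ℕ) : ℝ) * Q y ^ (3 - 1) * deriv Q y) y :=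
      (hQd y).pow 3
    rw [h3.deriv]
    norm_num
  have b1 : ∀ y, |Q y ^ 3| ≤ C0 ^ 3 * Real.exp (-|y|) := by
    intro y
    have := (hpos y).le
    rw [abs_of_nonneg (by positivity)]
    calc Q y ^ 3 = Q y ^ 2 * Q y := by ring
      _ ≤ C0 ^ 2 * (C0 * Real.exp (-|y|)) :=
        mul_le_mul (pow_le_pow_left₀ this (hQb1 y) 2) (hQb y) this (by positivity)
      _ = _ := by ring
  have m1' : MemLp (deriv fun y => Q y ^ 3) 2 := by
    refine memLp_of_bound (C := 3 * C0 ^ 2 * C1) (hp1.continuous_deriv le_rfl) fun y => ?_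
    rw [hp1d]
    have := (hpos y).le
    simp only
    rw [abs_mul, abs_of_nonneg (by positivity : (0 : ℝ) ≤ 3 * Q y ^ 2)]
    calc 3 * Q y ^ 2 * |deriv Q y| ≤ 3 * C0 ^ 2 * (C1 * Real.exp (-|y|)) := by
          refine mul_le_mul ?_ (hC1 y) (abs_nonneg _) (by positivity)
          have := pow_le_pow_left₀ this (hQb1 y) 2
          linarith
      _ = _ := by ring
  have m2' : MemLp (deriv (deriv Q)) 2 :=
    memLp_of_bound (hsm'.continuous_deriv le_rfl) hC2
  have hodd : ∀ y, deriv Q (-y) = - deriv Q y := by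
    intro y
    rw [hQ1, hQ1, heven]
    have : (2 * -y : ℝ) = -(2 * y) := by ring
    rw [this, Real.tanh_neg]
    ring
  have h12 : (∫ y, Q y ^ 3 * deriv Q y) = 0 := by
    have e1 := integral_neg_eq_self (fun y => Q y ^ 3 * deriv Q y) volume
    simp only [heven, hodd] at e1
    have e2 : (fun y => Q y ^ 3 * -deriv Q y) = fun y => -(Q y ^ 3 * deriv Q y) := by
      ext y; ring
    rw [e2, integral_neg] at e1
    linarith
  have m1 : MemLp (fun y => Q y ^ 3) 2 := memLp_of_bound hp1.continuous b1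
  have m2 : MemLp (deriv Q) 2 := memLp_of_bound hsm'.continuous hC1
  have pos_of : ∀ {u : ℝ → ℝ}, MemLp u 2 → (∀ y, 0 < y → u y ≠ 0) → 0 < ∫ y, u y ^ 2 := by
    intro u hu hne
    rw [integral_pos_iff_support_of_nonneg (fun y => sq_nonneg _) hu.integrable_sq]
    refine lt_of_lt_of_le ?_ (measure_mono (s := Set.Ioo (0 : ℝ) 1) fun y hy => ?_)
    · rw [Real.volume_Ioo]; simp
    · simp only [Function.mem_support]
      exact pow_ne_zero 2 (hne y hy.1)
  have hN1 : 0 < ∫ y, (Q y ^ 3) ^ 2 := pos_of m1 fun y _ => pow_ne_zero 3 (hpos y).ne'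
  have hN2 : 0 < ∫ y, deriv Q y ^ 2 := pos_of m2 fun y hy => by
    rw [hQ1, neg_ne_zero]
    refine mul_ne_zero (hpos y).ne' ?_
    rw [Real.tanh_eq_sinh_div_cosh]
    exact div_ne_zero (Real.sinh_pos_iff.2 (by linarith)).ne' (Real.cosh_pos _).ne'
  have hVc : Continuous (fun y => 5 * Q y ^ 4) := (hd1.continuous.pow 4).const_mul 5
  obtain ⟨ρ0, hρ0, h⟩ := abstractW (V := fun y => 5 * Q y ^ 4) (p1 := fun y => Q y ^ 3)
    (p2 := deriv Q) hVc (fun y => by positivity) (fun y => by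
      rw [hQ4]
      have h1 : 1 ≤ Real.cosh (2 * y) ^ 2 := one_le_pow₀ (Real.one_le_cosh _)
      have h3 : 3 / Real.cosh (2 * y) ^ 2 ≤ 3 := div_le_self (by norm_num) h1
      linarith) hp1 hsm' b1 hC1 m1' m2' h12 hN1 hN2
    (fun f a b c d e => (hC f a b c d e).2) K hK
  exact ⟨ρ0, hρ0, h⟩

end Pool.Agent.Helper41.KV
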